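import Pool.Agent.Helper57.EV.Tail

/-!
# Format-free facts on a polynomial with non negative coefficients of one parity
-/

set_option autoImplicit false

namespace Pool.Agent.Helper57.EV2

open Polynomial Pool.Agent.Helper57.EV

section basic

variable {p : ℤ[X]} (hnn : ∀ k, 0 ≤ p.coeff k)
  (hpar : ∀ j k, p.coeff j ≠ 0 → p.coeff k ≠ 0 → j % 2 = k % 2) (h0 : p ≠ 0)

theorem trailing_ne (h0 : p ≠ 0) : p.coeff p.natTrailingDegree ≠ 0 :=
  mt trailingCoeff_eq_zero.1 h0

include hpar h0 in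
theorem par_trailing (j : ℕ) (hj : (j + p.natTrailingDegree) % 2 = 1) : p.coeff j = 0 := by
  by_contra h
  have := hpar j _ h (trailing_ne h0)
  omega

include hpar h0 in
theorem aeval_eq (z : ℂ) : aeval z p = z ^ p.natTrailingDegree * aeval (z ^ 2) (half p) :=
  aeval_half h0 (par_trailing hpar h0) z

include hnn in
theorem half_nn (k : ℕ) : 0 ≤ (half p).coeff k := by
  rw [half_coeff]
  exact_mod_cast hnn _

include hnn h0 in
theorem half_one : 1 ≤ (half p).coeff 0 := by
  rw [half_coeff]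
  have h1 := hnn p.natTrailingDegree
  have h2 := trailing_ne h0
  have h3 : 1 ≤ p.coeff p.natTrailingDegree := by omega
  simpa using (by exact_mod_cast h3 : (1 : ℝ) ≤ ((p.coeff p.natTrailingDegree : ℤ) : ℝ))

theorem half_deg (h0 : p ≠ 0) :
    2 * (half p).natDegree + p.natTrailingDegree ≤ p.natDegree := by
  by_contra hcon
  push Not at hcon
  have h1 : half p ≠ 0 := by
    intro h
    have h2 : (half p).coeff 0 = 0 := by rw [h, coeff_zero]
    rw [half_coeff] at h2
    have h3 : p.coeff (p.natTrailingDegree + 2 * 0) = 0 := by exact_mod_cast h2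
    exact trailing_ne h0 (by simpa using h3)
  have h2 : (half p).coeff (half p).natDegree = 0 := by
    rw [half_coeff, coeff_eq_zero_of_natDegree_lt (by omega)]
    simp
  exact h1 (leadingCoeff_eq_zero.1 h2)

end basic

section lc

variable {p : ℤ[X]}
  (hpar : ∀ j k, p.coeff j ≠ 0 → p.coeff k ≠ 0 → j % 2 = k % 2) (h0 : p ≠ 0)

include hpar h0 in
/-- log-concavity of `half p` gives log-concavity of every second coefficient of `p` -/
theorem lc_of (hlc : ∀ k, 1 ≤ k → (half p).coeff (k - 1) * (half p).coeff (k + 1) ≤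
    (half p).coeff k ^ 2) (k : ℕ) :
    p.coeff k * p.coeff (k + 4) ≤ p.coeff (k + 2) ^ 2 := by
  obtain ⟨d, hd⟩ : ∃ d, d = p.natTrailingDegree := ⟨_, rfl⟩
  by_cases h1 : k < d
  · rw [coeff_eq_zero_of_lt_natTrailingDegree (hd ▸ h1), zero_mul]
    exact sq_nonneg _
  · by_cases h2 : (k + d) % 2 = 1
    · rw [par_trailing hpar h0 k (hd ▸ h2), zero_mul]
      exact sq_nonneg _
    · obtain ⟨j, hj⟩ : ∃ j, k = d + 2 * j := ⟨(k - d) / 2, by omega⟩
      have h3 := hlc (j + 1) (by omega)
      rw [half_coeff, half_coeff, half_coeff, ← hd] at h3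
      have e1 : d + 2 * (j + 1 - 1) = k := by omega
      have e2 : d + 2 * (j + 1 + 1) = k + 4 := by omega
      have e3 : d + 2 * (j + 1) = k + 2 := by omega
      rw [e1, e2, e3] at h3
      exact_mod_cast h3

end lc

/-- lower bound for the values at `2 sinh x`: the order at `0` is at most `a` -/
theorem trailing_le {p : ℤ[X]} (hnn : ∀ k, 0 ≤ p.coeff k)
    (hpar : ∀ j k, p.coeff j ≠ 0 → p.coeff k ≠ 0 → j % 2 = k % 2) (h0 : p ≠ 0)
    {Φ c : ℝ} {a : ℕ} (hΦ : 0 < Φ) (hc : 0 < c)
    (h : ∀ x : ℝ, 0 < x → x ≤ Φ → c * x ^ a ≤ ‖aeval (2 * Complex.sinh x) p‖) :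
    p.natTrailingDegree ≤ a := by
  by_contra hcon
  push Not at hcon
  obtain ⟨M, hM⟩ : ∃ M, M = (half p).eval 1 := ⟨_, rfl⟩
  have hM0 : 0 ≤ M := by
    rw [hM, eval_eq_sum_range]
    exact Finset.sum_nonneg fun k _ => mul_nonneg (half_nn hnn k) (by simp)
  have key : ∀ x : ℝ, 0 < x → x ≤ Φ → x ≤ 1 / 6 → c ≤ x * (M * 6 ^ (a + 1)) := by
    intro x hx hxΦ hx1
    have e2 := h x hx hxΦ
    have e4 := aeval_eq hpar h0 (2 * Complex.sinh x)
    have hexp1 : Real.exp x ≤ 3 := by
      have : Real.exp x ≤ Real.exp 1 := Real.exp_le_exp.2 (by linarith)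
      have := Real.exp_one_lt_d9
      linarith
    have hsx : ‖2 * Complex.sinh x‖ ≤ 6 * x := by
      have e5 : Complex.sinh x = ((Real.sinh x : ℝ) : ℂ) := by
        simp
      rw [e5, norm_mul, Complex.norm_real, Real.norm_of_nonneg (Real.sinh_nonneg_iff.2 hx.le)]
      have e6 : Real.sinh x ≤ x * Real.exp x := by
        rw [Real.sinh_eq]
        have e7 : 1 - 2 * x ≤ Real.exp (-(2 * x)) := by
          have := Real.add_one_le_exp (-(2 * x))
          linarith
        have e8 : Real.exp (-x) = Real.exp x * Real.exp (-(2 * x)) := by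
          rw [← Real.exp_add]
          congr 1
          ring
        have e9 := Real.exp_pos x
        rw [e8]
        nlinarith
      have e10 : x * Real.exp x ≤ x * 3 := mul_le_mul_of_nonneg_left hexp1 hx.le
      simp only [Complex.norm_ofNat]
      linarith
    have hsx1 : ‖2 * Complex.sinh x‖ ≤ 1 := by linarith
    have e5 : ‖aeval ((2 * Complex.sinh (x : ℂ)) ^ 2) (half p)‖ ≤ M := by
      rw [hM]
      apply norm_aeval_le (half_nn hnn)
      rw [norm_pow]
      exact pow_le_one₀ (norm_nonneg _) hsx1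
    have e6 : ‖aeval (2 * Complex.sinh x) p‖ ≤ (6 * x) ^ (a + 1) * M := by
      rw [e4, norm_mul, norm_pow]
      apply mul_le_mul _ e5 (norm_nonneg _) (by positivity)
      calc ‖2 * Complex.sinh x‖ ^ p.natTrailingDegree
          ≤ ‖2 * Complex.sinh x‖ ^ (a + 1) :=
            pow_le_pow_of_le_one (norm_nonneg _) hsx1 (by omega)
        _ ≤ (6 * x) ^ (a + 1) := pow_le_pow_left₀ (norm_nonneg _) hsx _
    have hxn : 0 < x ^ a := by positivity
    have e11 : x ^ a * c ≤ x ^ a * (x * (M * 6 ^ (a + 1))) := by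
      calc x ^ a * c = c * x ^ a := mul_comm _ _
        _ ≤ _ := e2
        _ ≤ _ := e6
        _ = _ := by ring
    exact le_of_mul_le_mul_left e11 hxn
  obtain ⟨K, hK⟩ : ∃ K, K = M * 6 ^ (a + 1) := ⟨_, rfl⟩
  have hK0 : 0 ≤ K := by rw [hK]; positivity
  obtain ⟨x, hx⟩ : ∃ x, x = min (min Φ (1 / 6)) (c / (2 * (K + 1))) := ⟨_, rfl⟩
  have hx0 : 0 < x := by
    rw [hx]
    have : 0 < c / (2 * (K + 1)) := by positivity
    exact lt_min (lt_min hΦ (by norm_num)) this
  have h2 := key x hx0 (by rw [hx]; exact (min_le_left _ _).trans (min_le_left _ _))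
    (by rw [hx]; exact (min_le_left _ _).trans (min_le_right _ _))
  rw [← hK] at h2
  have h3 : x ≤ c / (2 * (K + 1)) := by rw [hx]; exact min_le_right _ _
  have h4 : x * K ≤ c / (2 * (K + 1)) * K := mul_le_mul_of_nonneg_right h3 hK0
  have h5 : c / (2 * (K + 1)) * K < c := by
    rw [div_mul_eq_mul_div, div_lt_iff₀ (by positivity)]
    nlinarith
  linarith

end Pool.Agent.Helper57.EV2
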