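import Pool.Agent.Helper57.EV2.Last
import Pool.Agent.Helper76.EV2.NN
import Pool.Agent.Helper2.EV2.R8
import Pool.Agent.Helper49.EV2.Row
import Pool.Agent.Helper77.EV2.H14
import Pool.Agent.Helper29.EV2.H3

/-!
# The final theorem from R4 (existence) and R7 (the formula)
-/

set_option autoImplicit false

namespace Pool.Agent.Helper57.EV2

open Polynomial Pool.Agent.Helper85.Exp Pool.Agent.Helper60.EV2 Pool.Agent.Helper27.EV2

theorem fin_of (exists_conway : ∀ (W : Word) (hW : Ok W), W ≠ [] →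
      ∃ nab : Dg (shadow W hW) → ℤ[X], Cs nab)
    (form : ∀ (W : Word) (hW : Ok W), W ≠ [] → ∀ f : Dg (shadow W hW) → ℤ[X], Cs f →
      ∀ (D : Dg (shadow W hW)) (s : ℂ), s ≠ 0 →
      aeval (s⁻¹ - s) (f D) = s ^ (w0 W - wr D) * (1 - Qm W (s ^ 2) (s⁻¹ ^ 2) (stat D)).det)
    (b : ℕ) :
    ∃ m₀ : ℕ, ∀ (W : Word) (hW : Ok W), maxima W ≤ b → m₀ ≤ crossings W →
      ∀ nab : Dg (shadow W hW) → ℤ[X], Cs nab → ∀ j : ℕ,
        (nab (allPos _)).coeff j * (nab (allPos _)).coeff (j + 4) ≤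
          (nab (allPos _)).coeff (j + 2) ^ 2 :=
  last b exists_conway
    (fun _ hW hne _ h => Pool.Agent.Helper76.EV2.nab_nn hW hne h)
    (fun W hW hne _ h _ hs => Pool.Agent.Helper2.EV2.form_pos_of hW hs (form W hW hne _ h _ _ hs)
      (Pool.Agent.Helper49.EV2.wr_allPos hW))
    (Pool.Agent.Helper77.EV2.h1 b)
    (Pool.Agent.Helper77.EV2.h4 b)
    (fun nab hn r₀ R hr₀ _ => Pool.Agent.Helper29.RT.h3_of b nab hn form
      (fun _ hW => Pool.Agent.Helper49.EV2.wr_allPos hW) r₀ R hr₀)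
    (fun _ hW _ h hc D => Pool.Agent.Helper49.EV2.nab_zero hW h hc D)

end Pool.Agent.Helper57.EV2
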