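import Pool.Agent.Helper57.EV2.Fin
import Pool.Agent.Helper85.EV2.RowX

/-!
# The final theorem from R6 (the Schur complement) only
-/

set_option autoImplicit false

namespace Pool.Agent.Helper57.EV2

open Polynomial Pool.Agent.Helper85.Exp Pool.Agent.Helper60.EV2 Pool.Agent.Helper27.EV2

theorem fin_of_schur
    (schur : ∀ (W : Word) (hW : Ok W) (D : Dg (shadow W hW)) (b : Pt W), IsBase b → ∀ u : ℂˣ,
      Pool.Agent.Helper60.EV2.W (shadow W hW).nxt (shadow W hW).op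
        (Pool.Agent.Helper60.EV2.kd (u : ℂ) ((u⁻¹ : ℂˣ) : ℂ) D) b =
        (1 - Qm W ((u : ℂ) ^ 2) (((u⁻¹ : ℂˣ) : ℂ) ^ 2) (stat D)).det)
    (b : ℕ) :
    ∃ m₀ : ℕ, ∀ (W : Word) (hW : Ok W), maxima W ≤ b → m₀ ≤ crossings W →
      ∀ nab : Dg (shadow W hW) → ℤ[X], Cs nab → ∀ j : ℕ,
        (nab (allPos _)).coeff j * (nab (allPos _)).coeff (j + 4) ≤
          (nab (allPos _)).coeff (j + 2) ^ 2 :=
  fin_of (fun _ hW hne => Pool.Agent.Helper85.Rows.exists_conway hW hne)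
    (fun W hW hne _ h D _ hs => Pool.Agent.Helper85.Rows.form_of hW hne h D hs
      (fun hb u => schur W hW D _ hb u)) b

end Pool.Agent.Helper57.EV2
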