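import Pool.Agent.Helper57.EV2.Strip

/-!
# The format-free assembly: log-concavity for long members of a family, modulo the top coefficients
-/

set_option autoImplicit false

namespace Pool.Agent.Helper57.EV2

open Polynomial Pool.Agent.Helper57.EV

variable {ι : Type*} (len : ι → ℕ) (p G : ι → ℤ[X]) (e : ι → ℤ)

/-- `p i ≠ 0` from the lower bound of `G` at one point -/
theorem ne_zero_of {p G : ℤ[X]} {e : ℤ}
    (hid : ∀ s : ℂ, s ≠ 0 → aeval (s ^ 2) G = s ^ e * aeval (s⁻¹ - s) p)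
    {c K Φ θ : ℝ} {a : ℕ} (hΦ : 0 < Φ) (hθ : 0 < θ) (hc : 0 < c)
    (hG : ∀ x y : ℝ, 0 < x → x ≤ Φ → |y| ≤ θ →
      c * x ^ a ≤ ‖aeval (Complex.exp (-(2 * (x + y * Complex.I)))) G‖ ∧
      ‖aeval (Complex.exp (-(2 * (x + y * Complex.I)))) G‖ ≤ K) : p ≠ 0 := by
  rintro rfl
  have h1 := (hG Φ 0 hΦ le_rfl (by rw [abs_zero]; exact hθ.le)).1
  have h2 := norm_p hid Φ 0
  rw [map_zero, norm_zero] at h2
  have h3 : 0 < c * Φ ^ a := by positivity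
  have h4 : 0 < Real.exp (e * Φ) * ‖aeval (Complex.exp (-(2 * ((Φ : ℂ) + (0 : ℝ) * Complex.I)))) G‖ :=
    mul_pos (Real.exp_pos _) (lt_of_lt_of_le h3 h1)
  linarith

theorem ev2_of_top (K0 : ℕ) (nn : ∀ i k, 0 ≤ (p i).coeff k)
    (par : ∀ i j k, (p i).coeff j ≠ 0 → (p i).coeff k ≠ 0 → j % 2 = k % 2)
    (deg : ∀ i, (p i).natDegree ≤ len i)
    (hid : ∀ i, ∀ s : ℂ, s ≠ 0 → aeval (s ^ 2) (G i) = s ^ (e i) * aeval (s⁻¹ - s) (p i))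
    (he : ∀ i, |e i - len i| ≤ K0)
    (h1 : ∀ Φ : ℝ, 0 < Φ → ∃ th : ℝ, 0 < th ∧ ∃ a : ℕ, ∃ c : ℝ, 0 < c ∧ ∃ K : ℝ,
      ∀ i, ∀ x y : ℝ, 0 < x → x ≤ Φ → |y| ≤ th →
        c * x ^ a ≤ ‖aeval (Complex.exp (-(2 * (x + y * Complex.I)))) (G i)‖ ∧
        ‖aeval (Complex.exp (-(2 * (x + y * Complex.I)))) (G i)‖ ≤ K)
    (h3 : ∀ r₀ R : ℝ, 0 < r₀ → 0 < R → ∃ c : ℝ, 0 < c ∧ ∃ C : ℝ, ∀ i, ∀ z : ℂ, r₀ ≤ ‖z‖ →
      ‖z‖ ≤ R → ∀ b : ℝ, 0 < b → b ^ 2 = ‖z‖ * b + 1 →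
        ‖aeval z (p i)‖ ≤ C * b ^ (len i) * Real.exp (-(c * len i * (1 - Real.cos (2 * z.arg)))))
    (h4 : ∃ c : ℝ, 0 < c ∧ ∃ L₁ : ℕ, ∀ i, L₁ ≤ len i → ∀ k : ℕ, 1 ≤ k →
      ((half (p i)).natDegree : ℝ) ≤ k + c * len i →
        (half (p i)).coeff (k - 1) * (half (p i)).coeff (k + 1) ≤ (half (p i)).coeff k ^ 2) :
    ∃ m₀ : ℕ, ∀ i, m₀ ≤ len i → ∀ k : ℕ,
      (p i).coeff k * (p i).coeff (k + 4) ≤ (p i).coeff (k + 2) ^ 2 := by
  have h0 : ∀ i, p i ≠ 0 := by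
    obtain ⟨th, hth, a, c, hc, K, hG⟩ := h1 1 one_pos
    intro i
    exact ne_zero_of (hid i) one_pos hth hc (hG i)
  have h1' : ∀ Φ : ℝ, 0 < Φ → ∃ th : ℝ, 0 < th ∧ ∃ a : ℕ, (∀ i, (p i).natTrailingDegree ≤ a) ∧
      ∃ c : ℝ, 0 < c ∧ ∃ K : ℝ, 0 < K ∧ ∀ i, ∀ x y : ℝ, 0 < x → x ≤ Φ → |y| ≤ th →
        c * x ^ a * Real.exp (len i * x) ≤ ‖aeval (2 * Complex.sinh (x + y * Complex.I)) (p i)‖ ∧
        ‖aeval (2 * Complex.sinh (x + y * Complex.I)) (p i)‖ ≤ K * Real.exp (len i * x) := by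
    intro Φ hΦ
    obtain ⟨th, hth, a, c, hc, K, hG⟩ := h1 Φ hΦ
    refine ⟨th, hth, a, ?_, c * Real.exp (-(K0 * Φ)), by positivity,
      (|K| + 1) * Real.exp (K0 * Φ), by positivity, ?_⟩
    · intro i
      apply trailing_le (nn i) (par i) (h0 i) hΦ (c := c * Real.exp (-(K0 * Φ))) (by positivity)
      intro x hx hxΦ
      have h2 := (strip (hid i) (he i) hc (hG i) x 0 hx hxΦ (by rw [abs_zero]; exact hth.le)).1
      have h5 : (1 : ℝ) ≤ Real.exp (len i * x) := Real.one_le_exp (by positivity)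
      have e1 : ((x : ℂ) + ((0 : ℝ) : ℂ) * Complex.I) = (x : ℂ) := by simp
      rw [e1] at h2
      refine le_trans ?_ h2
      exact le_mul_of_one_le_right (by positivity) h5
    · intro i x y hx hxΦ hy
      obtain ⟨h5, h6⟩ := strip (hid i) (he i) hc (hG i) x y hx hxΦ hy
      refine ⟨h5, h6.trans ?_⟩
      apply mul_le_mul_of_nonneg_right _ (Real.exp_pos _).le
      apply mul_le_mul_of_nonneg_right _ (Real.exp_pos _).le
      have := le_abs_self K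
      linarith
  suffices hcore : ∃ L₀ : ℕ, ∀ L, L₀ ≤ L → ∀ P ∈ {P | ∃ i, len i = L ∧ P = half (p i)},
      ∀ k : ℕ, 1 ≤ k → P.coeff (k - 1) * P.coeff (k + 1) ≤ P.coeff k ^ 2 by
    obtain ⟨L₀, hL₀⟩ := hcore
    refine ⟨L₀, fun i hi k => ?_⟩
    exact lc_of (par i) (h0 i) (fun k hk => hL₀ (len i) hi (half (p i)) ⟨i, rfl, rfl⟩ k hk) k
  refine EVC.core (fun L => {P | ∃ i, len i = L ∧ P = half (p i)}) ?_ ?_ ?_ ?_
  · -- Nice
    rintro L P ⟨i, rfl, rfl⟩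
    exact
      { nn := half_nn (nn i)
        one := half_one (nn i) (h0 i)
        deg := by
          have h5 := half_deg (h0 i)
          have h6 := deg i
          omega }
  · -- H1
    intro Φ hΦ
    obtain ⟨th, hth, a, ha, c, hc, K, hK, hG⟩ := h1' Φ hΦ
    refine ⟨th, hth, a, c * ((2 * Real.exp Φ) ^ a)⁻¹, by positivity, K * (1 + Φ) ^ a,
      by positivity, ?_⟩
    rintro L P ⟨i, rfl, rfl⟩
    exact toH1 (par i) (h0 i) (ha i) hΦ hc (hG i)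
  · -- H3
    intro r₀ R hr₀
    by_cases hR : 0 < R
    · obtain ⟨Φ, hΦ, hΦR⟩ : ∃ Φ : ℝ, 0 < Φ ∧ Real.sqrt R ≤ 2 * Real.sinh Φ := by
        refine ⟨Real.arsinh (Real.sqrt R / 2), ?_, ?_⟩
        · exact Real.arsinh_pos_iff.2 (by have := Real.sqrt_pos.2 hR; linarith)
        · rw [Real.sinh_arsinh]
          linarith
      obtain ⟨th, hth, a, ha, c, hc, K, hK, hG⟩ := h1' Φ hΦ
      obtain ⟨cT, hcT, CT, hT⟩ := h3 (Real.sqrt r₀) (Real.sqrt R) (Real.sqrt_pos.2 hr₀)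
        (Real.sqrt_pos.2 hR)
      refine ⟨cT * (2 / Real.pi ^ 2), by have := Real.pi_pos; positivity,
        |CT| * (c * Real.arsinh (Real.sqrt r₀ / 2) ^ a)⁻¹, ?_⟩
      rintro L P ⟨i, rfl, rfl⟩
      refine toH3 (nn i) (par i) (h0 i) (ha i) hc hr₀ hΦR hcT (abs_nonneg CT) ?_ ?_
      · intro x hx hxΦ
        exact (hG i x 0 hx hxΦ (by rw [abs_zero]; exact hth.le)).1
      · intro z hz1 hz2 b hb hb2
        refine (hT i z hz1 hz2 b hb hb2).trans ?_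
        apply mul_le_mul_of_nonneg_right _ (Real.exp_pos _).le
        apply mul_le_mul_of_nonneg_right (le_abs_self CT) (by positivity)
    · refine ⟨1, one_pos, 0, ?_⟩
      intro L P _ r θ h5 h6 _
      exfalso
      linarith
  · -- H4
    obtain ⟨c, hc, L₁, H⟩ := h4
    refine ⟨c, hc, L₁, ?_⟩
    rintro L hL P ⟨i, rfl, rfl⟩ k hk hk2
    exact H i hL k hk hk2

end Pool.Agent.Helper57.EV2
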