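import Pool.Agent.Helper27.EV2.Rec

/-!
# EV2, leaf E2: the value of the integer polynomial `GP W`
-/

set_option autoImplicit false

namespace Pool.Agent.Helper57.EV2

open Polynomial Pool.Agent.Helper27.EV2

section

variable {R S : Type} [CommRing R] [CommRing S] (φ : R →+* S) (t ti : R) (ti' : S)

theorem fl_map (k : ℕ) (u : ℕ → R) (j : ℕ) :
    φ (fl t ti .pos k u j) = fl (φ t) ti' .pos k (fun j => φ (u j)) j := by
  unfold fl
  simp only [smul_eq_mul]
  split_ifs <;> simp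

theorem frun_map (w : List ℕ) (u : ℕ → R) (i : ℕ) :
    ∀ j, φ (frun t ti (fun _ => .pos) w u i j) =
      frun (φ t) ti' (fun _ => .pos) w (fun j => φ (u j)) i j := by
  induction i with
  | zero => intro j; rfl
  | succ i ih =>
    intro j
    show φ (fl t ti .pos (w.getD i 0) (frun t ti (fun _ => .pos) w u i) j) =
      fl (φ t) ti' .pos (w.getD i 0) (frun (φ t) ti' (fun _ => .pos) w (fun j => φ (u j)) i) j
    rw [fl_map φ t ti ti']
    have : (fun j => φ (frun t ti (fun _ => .pos) w u i j)) =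
        frun (φ t) ti' (fun _ => .pos) w (fun j => φ (u j)) i := funext ih
    rw [this]

theorem fext_map (e : Ext) (b : ℕ) (ξ η : ℕ → R) (u : ℕ → R) (j : ℕ) :
    φ (fext e b ξ η u j) = fext e b (fun a => φ (ξ a)) (fun a => φ (η a)) (fun j => φ (u j)) j := by
  cases e with
  | mx k d =>
    simp only [fext, ins]
    split_ifs <;> rfl
  | mn k =>
    simp only [fext, del]
    split_ifs <;> rfl

theorem flow_map (W : Word) (ξ η : ℕ → R) (r : ℕ) :
    ∀ j, φ (flow W t ti ps ξ η r j) =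
      flow W (φ t) ti' ps (fun a => φ (ξ a)) (fun a => φ (η a)) r j := by
  induction r with
  | zero =>
    intro j
    show φ ((0 : ℕ → R) j) = (0 : ℕ → S) j
    simp
  | succ r ih =>
    intro j
    show φ (frun t ti (fun _ => .pos) (row W r).w (fext (row W r).e (nb W r) ξ η (flow W t ti ps ξ η r))
      (row W r).w.length j) = frun (φ t) ti' (fun _ => .pos) (row W r).w
        (fext (row W r).e (nb W r) (fun a => φ (ξ a)) (fun a => φ (η a))
          (flow W (φ t) ti' ps (fun a => φ (ξ a)) (fun a => φ (η a)) r)) (row W r).w.length j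
    rw [frun_map φ t ti ti']
    congr 1
    funext j
    rw [fext_map]
    congr 1
    exact funext ih

theorem Q_map (W : Word) (ξ : ℕ → R) (i : ℕ) :
    φ (Q W t ti ps ξ i) = Q W (φ t) ti' ps (fun a => φ (ξ a)) i := by
  unfold Q
  rw [map_sum]
  refine Finset.sum_congr rfl fun r _ => ?_
  have h0 : (fun a => φ ((0 : ℕ → R) a)) = (0 : ℕ → S) := by
    funext a
    simp
  rcases (row W r).e with ⟨k, d⟩ | k
  · simp
  · simp only
    split_ifs
    · rw [flow_map φ t ti ti', h0]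
    · simp
    · rw [flow_map φ t ti ti', h0]
    · simp

theorem Qm_map (W : Word) : (Qm W t ti ps).map φ = Qm W (φ t) ti' ps := by
  ext i j
  rw [Matrix.map_apply]
  unfold Qm
  split_ifs
  · simp
  · rw [Q_map φ t ti ti']
    congr 1
    funext a
    split_ifs <;> simp

end

/-- E2 -/
theorem GP_eval (W : Word) (t : ℂ) : aeval t (GP W) = GG W t := by
  unfold GP GG
  have h1 := RingHom.map_det ((aeval t : ℤ[X] →ₐ[ℤ] ℂ) : ℤ[X] →+* ℂ) (1 - Qm W (X : ℤ[X]) 0 ps)
  have h2 : ((aeval t : ℤ[X] →ₐ[ℤ] ℂ) : ℤ[X] →+* ℂ) (1 - Qm W (X : ℤ[X]) 0 ps).det =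
      aeval t (1 - Qm W (X : ℤ[X]) 0 ps).det := rfl
  rw [← h2, h1]
  congr 1
  rw [map_sub, map_one]
  congr 1
  have h3 := Qm_map ((aeval t : ℤ[X] →ₐ[ℤ] ℂ) : ℤ[X] →+* ℂ) (X : ℤ[X]) 0 t⁻¹ W
  have h4 : ((aeval t : ℤ[X] →ₐ[ℤ] ℂ) : ℤ[X] →+* ℂ) X = t := by simp
  rw [h4] at h3
  exact h3

end Pool.Agent.Helper57.EV2
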