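import Pool.Agent.Helper57.EV2.TopG
import Pool.Agent.Helper57.EV2.GPEval

/-!
# The final theorem for words of rows, from the leaves
-/

set_option autoImplicit false

namespace Pool.Agent.Helper57.EV2

open Polynomial Pool.Agent.Helper85.Exp Pool.Agent.Helper60.EV2 Pool.Agent.Helper27.EV2

/-! ### Counting rows -/

/-- number of minima -/
def minima (W : Word) : ℕ := (W.filter fun x => match x.e with | .mx _ _ => false | .mn _ => true).length

theorem maxima_append (W W' : Word) : maxima (W ++ W') = maxima W + maxima W' := by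
  unfold maxima
  rw [List.filter_append, List.length_append]

theorem minima_append (W W' : Word) : minima (W ++ W') = minima W + minima W' := by
  unfold minima
  rw [List.filter_append, List.length_append]

theorem length_eq (W : Word) : W.length = maxima W + minima W := by
  induction W with
  | nil => rfl
  | cons x W ih =>
    have h1 : (x :: W) = [x] ++ W := rfl
    rw [h1, List.length_append, maxima_append, minima_append, ih]
    have h2 : ([x] : Word).length = maxima [x] + minima [x] := by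
      unfold maxima minima
      rcases x with ⟨e, w⟩
      cases e <;> simp
    omega

theorem lv_succ (W : Word) {r : ℕ} (hr : r < W.length) :
    lv W (r + 1) = (row W r).e.act (lv W r) := by
  unfold lv row
  rw [List.take_succ, List.foldl_append, List.getElem?_eq_getElem hr, List.getD_eq_getElem _ _ hr]
  rfl

theorem take_succ_eq (W : Word) {r : ℕ} (hr : r < W.length) :
    W.take (r + 1) = W.take r ++ [row W r] := by
  unfold row
  rw [List.take_succ, List.getElem?_eq_getElem hr, List.getD_eq_getElem _ _ hr]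
  rfl

theorem act_length {e : Ext} {l : List Bool} (h : e.Ok l) :
    (e.act l).length + 2 * (minima [⟨e, []⟩]) = l.length + 2 * maxima [⟨e, []⟩] := by
  cases e with
  | mx k d =>
    have hk : k ≤ l.length := h
    show (l.take k ++ d :: (!d) :: l.drop k).length + 2 * 0 = l.length + 2 * 1
    simp only [List.length_append, List.length_take, List.length_cons, List.length_drop]
    omega
  | mn k =>
    obtain ⟨d, h1, h2⟩ := h
    have hk : k + 1 < l.length := by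
      by_contra hcon
      rw [List.getElem?_eq_none (by omega)] at h2
      exact absurd h2 (by simp)
    show (l.take k ++ l.drop (k + 2)).length + 2 * 1 = l.length + 2 * 0
    simp only [List.length_append, List.length_take, List.length_drop]
    omega

theorem single_max (x : Row) : maxima [x] = maxima [⟨x.e, []⟩] := by
  rcases x with ⟨e, w⟩
  cases e <;> rfl

theorem single_min (x : Row) : minima [x] = minima [⟨x.e, []⟩] := by
  rcases x with ⟨e, w⟩
  cases e <;> rfl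

theorem lv_length {W : Word} (hW : Ok W) : ∀ r ≤ W.length,
    (lv W r).length + 2 * minima (W.take r) = 2 * maxima (W.take r) := by
  intro r
  induction r with
  | zero => intro _; simp [lv, minima, maxima]
  | succ r ih =>
    intro hr
    have h1 := ih (by omega)
    have h2 := act_length (hW.ext r (by omega))
    rw [lv_succ W (by omega), take_succ_eq W (by omega), maxima_append, minima_append,
      single_max, single_min]
    omega

theorem length_word {W : Word} (hW : Ok W) : W.length = 2 * maxima W := by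
  have h1 := lv_length hW W.length le_rfl
  rw [hW.closed, List.take_length] at h1
  have h2 := length_eq W
  simp only [List.length_nil] at h1
  omega

theorem abs_w0_le (W : Word) : |w0 W| ≤ W.length := by
  unfold w0
  refine (Finset.abs_sum_le_sum_abs _ _).trans ?_
  have h1 : ∀ r ∈ Finset.range W.length, |(match (row W r).e with
    | .mx _ d => if r = 0 then (if d then (0 : ℤ) else -1) else (if d then -1 else 0)
    | .mn k => if (lv W r).getD k false = true then 0 else 1)| ≤ 1 := by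
    intro r _
    rcases (row W r).e with ⟨k, d⟩ | k
    · simp only
      split_ifs <;> simp
    · simp only
      split_ifs <;> simp
  refine (Finset.sum_le_sum h1).trans ?_
  simp

theorem lv_one {W : Word} (hW : Ok W) (hne : W ≠ []) : (lv W 1).length = 2 := by
  have h0 : 0 < W.length := List.length_pos_iff.2 hne
  have h1 : lv W 0 = [] := by simp [lv]
  have h2 := hW.ext 0 h0
  have h3 := lv_succ W h0
  rw [h1] at h2 h3
  rw [zero_add] at h3
  rw [h3]
  rcases he : (row W 0).e with ⟨k, d⟩ | k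
  · rw [he] at h2
    have hk : k ≤ ([] : List Bool).length := h2
    have hk0 : k = 0 := by simpa using hk
    subst hk0
    rfl
  · rw [he] at h2
    obtain ⟨d, h4, _⟩ := h2
    simp at h4

theorem nonempty_pt {W : Word} (hW : Ok W) (hne : W ≠ []) : Nonempty (Pt W) :=
  ⟨⟨0, 0, 0, List.length_pos_iff.2 hne, Nat.zero_le _, by
    rw [zero_add, lv_one hW hne]
    norm_num⟩⟩

/-- R9 -/
theorem w0_le {W : Word} (hW : Ok W) : |w0 W| ≤ 2 * maxima W := by
  have h1 := abs_w0_le W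
  have h2 := length_word hW
  refine h1.trans ?_
  exact_mod_cast h2.le

/-! ### The disc -/

theorem disc (b : ℕ) (upper_small : ∃ K > 0, ∀ W : Word, Ok W → maxima W ≤ b → ∀ s : ℂ,
      ‖s‖ = 2 / 5 → ‖GG W (s ^ 2)‖ ≤ K) :
    ∃ t₀ : ℝ, 0 < t₀ ∧ ∃ K : ℝ, ∀ W : Word, Ok W → W ≠ [] → maxima W ≤ b → ∀ t : ℂ, ‖t‖ ≤ t₀ →
      ‖aeval t (GP W)‖ ≤ K := by
  obtain ⟨K, -, hK⟩ := upper_small
  refine ⟨4 / 25, by norm_num, K, fun W hW _ hb t ht => ?_⟩
  have e : ∀ z : ℂ, ((GP W).map (Int.castRingHom ℂ)).eval z = aeval z (GP W) := by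
    intro z
    rw [eval_map, aeval_def]
    congr 1
  rw [← e]
  refine Pool.Agent.Helper48.EV2.max_disc _ (r := 4 / 25) (by norm_num) ?_ t ht
  intro z hz
  rw [e, GP_eval]
  obtain ⟨s, hs⟩ : ∃ s : ℂ, s ^ 2 = z := ⟨z ^ ((1 : ℂ) / 2), by
    rw [← Complex.cpow_nat_mul]
    norm_num⟩
  have hns : ‖s‖ = 2 / 5 := by
    have h1 : ‖s‖ ^ 2 = (2 / 5 : ℝ) ^ 2 := by
      rw [← norm_pow, hs, hz]
      norm_num
    exact (sq_eq_sq₀ (norm_nonneg _) (by norm_num)).1 h1
  rw [← hs]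
  exact hK W hW hb s hns

/-! ### The final theorem -/

theorem ss_sq (x y : ℝ) : ss x y ^ 2 = Complex.exp (-(2 * (x + y * Complex.I))) := by
  unfold ss
  rw [← Complex.exp_nat_mul]
  congr 1
  push_cast
  ring

/-- R10 from the bounds of `GG` (D7, D8) -/
theorem h1_of (b : ℕ)
    (lower : ∀ Φ : ℝ, 0 < Φ → ∃ th > 0, ∃ ka > 0, ∀ W : Word, Ok W → W ≠ [] → Conn W →
      maxima W ≤ b → ∀ x y : ℝ, 0 < x → x ≤ Φ → |y| ≤ th → ka * x ^ b ≤ ‖GG W (ss x y ^ 2)‖)
    (upper : ∀ Φ : ℝ, 0 < Φ → ∃ th > 0, ∃ K > 0, ∀ W : Word, Ok W → maxima W ≤ b →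
      ∀ x y : ℝ, 0 < x → x ≤ Φ → |y| ≤ th → ‖GG W (ss x y ^ 2)‖ ≤ K) (Φ : ℝ) (hΦ : 0 < Φ) :
    ∃ th : ℝ, 0 < th ∧ ∃ a : ℕ, ∃ c : ℝ, 0 < c ∧ ∃ K : ℝ,
      ∀ W : Word, Ok W → W ≠ [] → Conn W → maxima W ≤ b → ∀ x y : ℝ, 0 < x → x ≤ Φ → |y| ≤ th →
        c * x ^ a ≤ ‖aeval (Complex.exp (-(2 * (x + y * Complex.I)))) (GP W)‖ ∧
        ‖aeval (Complex.exp (-(2 * (x + y * Complex.I)))) (GP W)‖ ≤ K := by
  obtain ⟨th, hth, ka, hka, hl⟩ := lower Φ hΦ
  obtain ⟨th', hth', K', hK', hu⟩ := upper Φ hΦ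
  refine ⟨min th th', lt_min hth hth', b, ka, hka, K', ?_⟩
  intro W hW hne hc hb x y hx hxΦ hy
  rw [← ss_sq, GP_eval]
  exact ⟨hl W hW hne hc hb x y hx hxΦ (hy.trans (min_le_left _ _)),
    hu W hW hb x y hx hxΦ (hy.trans (min_le_right _ _))⟩

/-- The hypotheses are the leaves R4, R5', R8, R10, R11, R12, R13 of `Helper27.EV2.Stubs`. -/
theorem last (b : ℕ)
    (exists_conway : ∀ (W : Word) (hW : Ok W), W ≠ [] →
      ∃ nab : Dg (shadow W hW) → ℤ[X], Cs nab)
    (nab_nn : ∀ (W : Word) (hW : Ok W), W ≠ [] → ∀ nab : Dg (shadow W hW) → ℤ[X], Cs nab →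
      (∀ k, 0 ≤ (nab (allPos _)).coeff k) ∧ (nab (allPos _)).natDegree ≤ crossings W ∧
        ∀ j k, (nab (allPos _)).coeff j ≠ 0 → (nab (allPos _)).coeff k ≠ 0 → j % 2 = k % 2)
    (form_pos : ∀ (W : Word) (hW : Ok W), W ≠ [] → ∀ nab : Dg (shadow W hW) → ℤ[X], Cs nab →
      ∀ s : ℂ, s ≠ 0 →
        aeval (s ^ 2) (GP W) = s ^ ((crossings W : ℤ) - w0 W) * aeval (s⁻¹ - s) (nab (allPos _)))
    (h1 : ∀ Φ : ℝ, 0 < Φ → ∃ th : ℝ, 0 < th ∧ ∃ a : ℕ, ∃ c : ℝ, 0 < c ∧ ∃ K : ℝ,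
      ∀ W : Word, Ok W → W ≠ [] → Conn W → maxima W ≤ b → ∀ x y : ℝ, 0 < x → x ≤ Φ → |y| ≤ th →
        c * x ^ a ≤ ‖aeval (Complex.exp (-(2 * (x + y * Complex.I)))) (GP W)‖ ∧
        ‖aeval (Complex.exp (-(2 * (x + y * Complex.I)))) (GP W)‖ ≤ K)
    (h4 : ∃ t₀ : ℝ, 0 < t₀ ∧ ∃ K : ℝ, ∀ W : Word, Ok W → W ≠ [] → maxima W ≤ b → ∀ t : ℂ, ‖t‖ ≤ t₀ →
      ‖aeval t (GP W)‖ ≤ K)
    (h3 : ∀ (nab : ∀ (W : Word) (hW : Ok W), Dg (shadow W hW) → ℤ[X]),
      (∀ (W : Word) (hW : Ok W), W ≠ [] → Cs (nab W hW)) → ∀ r₀ R : ℝ, 0 < r₀ → 0 < R →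
      ∃ c : ℝ, 0 < c ∧ ∃ C : ℝ, ∀ (W : Word) (hW : Ok W), W ≠ [] → maxima W ≤ b → ∀ z : ℂ,
        r₀ ≤ ‖z‖ → ‖z‖ ≤ R → ∀ a : ℝ, 0 < a → a ^ 2 = ‖z‖ * a + 1 →
          ‖aeval z (nab W hW (allPos _))‖ ≤
            C * a ^ (crossings W) * Real.exp (-(c * crossings W * (1 - Real.cos (2 * z.arg)))))
    (nab_zero : ∀ (W : Word) (hW : Ok W) (nab : Dg (shadow W hW) → ℤ[X]), Cs nab → ¬ Conn W →
      ∀ D : Dg (shadow W hW), nab D = 0) :
    ∃ m₀ : ℕ, ∀ (W : Word) (hW : Ok W), maxima W ≤ b → m₀ ≤ crossings W →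
      ∀ nab : Dg (shadow W hW) → ℤ[X], Cs nab → ∀ j : ℕ,
        (nab (allPos _)).coeff j * (nab (allPos _)).coeff (j + 4) ≤
          (nab (allPos _)).coeff (j + 2) ^ 2 := by
  classical
  obtain ⟨nab0, hnab0⟩ : ∃ nab0 : ∀ (W : Word) (hW : Ok W), Dg (shadow W hW) → ℤ[X],
      ∀ (W : Word) (hW : Ok W), W ≠ [] → Cs (nab0 W hW) := by
    refine ⟨fun W hW => if hne : W ≠ [] then (exists_conway W hW hne).choose else fun _ => 0, ?_⟩
    intro W hW hne
    have h5 := (exists_conway W hW hne).choose_spec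
    simp only [dif_pos hne]
    exact h5
  obtain ⟨m₀, hm₀⟩ := ev2 (ι := {W : Word // Ok W ∧ W ≠ [] ∧ Conn W ∧ maxima W ≤ b})
    (fun W => crossings W.1) (fun W => nab0 W.1 W.2.1 (allPos _)) (fun W => GP W.1)
    (fun W => crossings W.1 - w0 W.1) (2 * b)
    (fun W => (nab_nn W.1 W.2.1 W.2.2.1 _ (hnab0 W.1 W.2.1 W.2.2.1)).1)
    (fun W => (nab_nn W.1 W.2.1 W.2.2.1 _ (hnab0 W.1 W.2.1 W.2.2.1)).2.2)
    (fun W => (nab_nn W.1 W.2.1 W.2.2.1 _ (hnab0 W.1 W.2.1 W.2.2.1)).2.1)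
    (fun W s hs => form_pos W.1 W.2.1 W.2.2.1 _ (hnab0 W.1 W.2.1 W.2.2.1) s hs)
    (fun W => by
      have h5 := w0_le W.2.1
      have h6 := W.2.2.2.2
      have e : (crossings W.1 : ℤ) - w0 W.1 - crossings W.1 = -(w0 W.1) := by ring
      rw [e, abs_neg]
      refine h5.trans ?_
      exact_mod_cast (by omega : 2 * maxima W.1 ≤ 2 * b))
    (fun Φ hΦ => by
      obtain ⟨th, hth, a, c, hc, K, hK⟩ := h1 Φ hΦ
      exact ⟨th, hth, a, c, hc, K, fun W x y hx hxΦ hy =>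
        hK W.1 W.2.1 W.2.2.1 W.2.2.2.1 W.2.2.2.2 x y hx hxΦ hy⟩)
    (fun r₀ R hr₀ hR => by
      obtain ⟨c, hc, C, hC⟩ := h3 nab0 hnab0 r₀ R hr₀ hR
      exact ⟨c, hc, C, fun W z h1 h2 a ha ha2 =>
        hC W.1 W.2.1 W.2.2.1 W.2.2.2.2 z h1 h2 a ha ha2⟩)
    (by
      obtain ⟨t₀, ht₀, K, hK⟩ := h4
      exact ⟨t₀, ht₀, K, fun W t ht => hK W.1 W.2.1 W.2.2.1 W.2.2.2.2 t ht⟩)
  refine ⟨m₀ + 1, fun W hW hb hm nab hnab j => ?_⟩
  have hne : W ≠ [] := by
    rintro rfl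
    simp [crossings] at hm
  by_cases hc : Conn W
  · have h5 : m₀ ≤ crossings W := by omega
    haveI : Nonempty (Pt W) := nonempty_pt hW hne
    have h6 : nab = nab0 W hW := Cs.unique hnab (hnab0 W hW hne)
    rw [h6]
    exact hm₀ ⟨W, hW, hne, hc, hb⟩ h5 j
  · rw [nab_zero W hW nab hnab hc]
    simp

end Pool.Agent.Helper57.EV2
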