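import Pool.Agent.Helper57.EV2.Half
import Pool.Agent.Helper3.EVC.Core

/-!
# From the bounds of the determinant to the hypotheses H1 and H3 of the core, format-free
-/

set_option autoImplicit false

namespace Pool.Agent.Helper57.EV2

open Polynomial Pool.Agent.Helper57.EV

/-- size of `p (2 sinh φ)` in terms of `G (exp (-2 φ))` -/
theorem norm_p {p G : ℤ[X]} {e : ℤ}
    (hid : ∀ s : ℂ, s ≠ 0 → aeval (s ^ 2) G = s ^ e * aeval (s⁻¹ - s) p) (x y : ℝ) :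
    ‖aeval (2 * Complex.sinh (x + y * Complex.I)) p‖ =
      Real.exp (e * x) * ‖aeval (Complex.exp (-(2 * (x + y * Complex.I)))) G‖ := by
  obtain ⟨s, hs⟩ : ∃ s, s = Complex.exp (-((x : ℂ) + y * Complex.I)) := ⟨_, rfl⟩
  have hns : ‖s‖ = Real.exp (-x) := by rw [hs]; exact norm_s x y
  have hs0 : s ≠ 0 := by rw [hs]; exact Complex.exp_ne_zero _
  have h1 : s⁻¹ - s = 2 * Complex.sinh (x + y * Complex.I) := by rw [hs]; exact s_inv_sub _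
  have h2 : s ^ 2 = Complex.exp (-(2 * (x + y * Complex.I))) := by
    rw [hs, ← Complex.exp_nat_mul]
    congr 1
    push_cast
    ring
  have h3 := hid s hs0
  rw [h1, h2] at h3
  rw [h3, norm_mul, norm_zpow, hns]
  have h4 : Real.exp (e * x) * Real.exp (-x) ^ e = 1 := by
    have h5 : Real.exp (-x) ^ e = Real.exp (e * (-x)) := by
      apply Complex.ofReal_injective
      rw [Complex.ofReal_zpow, Complex.ofReal_exp, Complex.ofReal_exp, ← Complex.exp_int_mul]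
      push_cast
      rfl
    rw [h5, ← Real.exp_add]
    have : (e : ℝ) * x + e * (-x) = 0 := by ring
    rw [this, Real.exp_zero]
  rw [← mul_assoc, h4, one_mul]

theorem exp_e_le {e : ℤ} {m K0 : ℕ} (he : |e - m| ≤ K0) {x Φ : ℝ} (hx : 0 ≤ x) (hxΦ : x ≤ Φ) :
    Real.exp (-(K0 * Φ)) * Real.exp (m * x) ≤ Real.exp (e * x) ∧
      Real.exp (e * x) ≤ Real.exp (K0 * Φ) * Real.exp (m * x) := by
  rw [abs_le] at he
  have h1 : (e : ℝ) - m ≤ K0 := by exact_mod_cast he.2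
  have h2 : -(K0 : ℝ) ≤ (e : ℝ) - m := by exact_mod_cast he.1
  have hK : (0 : ℝ) ≤ K0 := Nat.cast_nonneg _
  have h3 : (K0 : ℝ) * x ≤ K0 * Φ := mul_le_mul_of_nonneg_left hxΦ hK
  have h4 : ((e : ℝ) - m) * x ≤ K0 * x := mul_le_mul_of_nonneg_right h1 hx
  have h5 : -(K0 : ℝ) * x ≤ ((e : ℝ) - m) * x := mul_le_mul_of_nonneg_right h2 hx
  rw [← Real.exp_add, ← Real.exp_add, Real.exp_le_exp, Real.exp_le_exp]
  constructor <;> linarith

/-- two-sided bound of `p (2 sinh φ)` in the strip -/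
theorem strip {p G : ℤ[X]} {e : ℤ}
    (hid : ∀ s : ℂ, s ≠ 0 → aeval (s ^ 2) G = s ^ e * aeval (s⁻¹ - s) p)
    {m K0 : ℕ} (he : |e - m| ≤ K0) {Φ θ c K : ℝ} {a : ℕ} (hc : 0 < c)
    (hG : ∀ x y : ℝ, 0 < x → x ≤ Φ → |y| ≤ θ →
      c * x ^ a ≤ ‖aeval (Complex.exp (-(2 * (x + y * Complex.I)))) G‖ ∧
      ‖aeval (Complex.exp (-(2 * (x + y * Complex.I)))) G‖ ≤ K) :
    ∀ x y : ℝ, 0 < x → x ≤ Φ → |y| ≤ θ →
      c * Real.exp (-(K0 * Φ)) * x ^ a * Real.exp (m * x) ≤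
        ‖aeval (2 * Complex.sinh (x + y * Complex.I)) p‖ ∧
      ‖aeval (2 * Complex.sinh (x + y * Complex.I)) p‖ ≤
        K * Real.exp (K0 * Φ) * Real.exp (m * x) := by
  intro x y hx hxΦ hy
  obtain ⟨h1, h2⟩ := hG x y hx hxΦ hy
  obtain ⟨h3, h4⟩ := exp_e_le he hx.le hxΦ
  rw [norm_p hid x y]
  obtain ⟨g, hg⟩ : ∃ g, g = ‖aeval (Complex.exp (-(2 * ((x : ℂ) + y * Complex.I)))) G‖ := ⟨_, rfl⟩
  rw [← hg] at h1 h2 ⊢
  have hg0 : 0 ≤ g := by rw [hg]; exact norm_nonneg _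
  constructor
  · calc c * Real.exp (-(K0 * Φ)) * x ^ a * Real.exp (m * x)
        = (Real.exp (-(K0 * Φ)) * Real.exp (m * x)) * (c * x ^ a) := by ring
      _ ≤ Real.exp (e * x) * g :=
          mul_le_mul h3 h1 (by positivity) (Real.exp_pos _).le
  · calc Real.exp (e * x) * g ≤ (Real.exp (K0 * Φ) * Real.exp (m * x)) * K :=
          mul_le_mul h4 h2 hg0 (by positivity)
      _ = _ := by ring

/-- **H1** for `half p` -/
theorem toH1 {p : ℤ[X]}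
    (hpar : ∀ j k, p.coeff j ≠ 0 → p.coeff k ≠ 0 → j % 2 = k % 2) (h0 : p ≠ 0)
    {m a : ℕ} (hd : p.natTrailingDegree ≤ a) {Φ θ c K : ℝ} (hΦ : 0 < Φ) (hc : 0 < c)
    (h : ∀ x y : ℝ, 0 < x → x ≤ Φ → |y| ≤ θ →
      c * x ^ a * Real.exp (m * x) ≤ ‖aeval (2 * Complex.sinh (x + y * Complex.I)) p‖ ∧
      ‖aeval (2 * Complex.sinh (x + y * Complex.I)) p‖ ≤ K * Real.exp (m * x)) :
    EVC.H1 a (c * ((2 * Real.exp Φ) ^ a)⁻¹) (K * (1 + Φ) ^ a) Φ θ m (half p) := by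
  intro x y hx hxΦ hy
  obtain ⟨h1, h2⟩ := h x y hx hxΦ hy
  have e2 := aeval_eq hpar h0 (2 * Complex.sinh (x + y * Complex.I))
  have e3 : (2 * Complex.sinh (x + y * Complex.I)) ^ 2 = EVC.T x y := by
    unfold EVC.T
    ring
  rw [e3] at e2
  rw [e2, norm_mul, norm_pow] at h1 h2
  obtain ⟨d, hd'⟩ : ∃ d, d = p.natTrailingDegree := ⟨_, rfl⟩
  obtain ⟨A, hA⟩ : ∃ A, A = ‖aeval (EVC.T x y) (half p)‖ := ⟨_, rfl⟩
  obtain ⟨Z, hZ⟩ : ∃ Z, Z = ‖2 * Complex.sinh (x + y * Complex.I)‖ := ⟨_, rfl⟩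
  obtain ⟨E, hE⟩ : ∃ E, E = Real.exp (m * x) := ⟨_, rfl⟩
  rw [← hd', ← hA, ← hZ, ← hE] at h1 h2
  rw [← hd'] at hd
  rw [← hA, ← hE]
  have hZ1 : 2 * x ≤ Z := by
    rw [hZ, norm_mul]
    have := norm_sinh_ge hx.le y
    simp only [Complex.norm_ofNat]
    linarith
  have hZ2 : Z ≤ 2 * Real.exp Φ := by
    rw [hZ, norm_mul]
    have := norm_sinh_le hx.le y
    have h2 : Real.exp x ≤ Real.exp Φ := Real.exp_le_exp.2 hxΦ
    simp only [Complex.norm_ofNat]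
    linarith
  have hE0 : 0 < E := by rw [hE]; exact Real.exp_pos _
  have hA0 : 0 ≤ A := by rw [hA]; exact norm_nonneg _
  have hZ0 : 0 < Z := by linarith
  constructor
  · have h3 : Z ^ d ≤ (2 * Real.exp Φ) ^ a := by
      have h3 : (1 : ℝ) ≤ 2 * Real.exp Φ := by
        have := Real.one_le_exp hΦ.le
        linarith
      exact (pow_le_pow_left₀ hZ0.le hZ2 d).trans (pow_le_pow_right₀ h3 hd)
    have h5 : 0 < (2 * Real.exp Φ) ^ a := by positivity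
    have h6 : c * ((2 * Real.exp Φ) ^ a)⁻¹ * x ^ a * E = (c * x ^ a * E) / (2 * Real.exp Φ) ^ a := by
      rw [div_eq_mul_inv]
      ring
    rw [h6, div_le_iff₀ h5]
    calc c * x ^ a * E ≤ Z ^ d * A := h1
      _ ≤ (2 * Real.exp Φ) ^ a * A := mul_le_mul_of_nonneg_right h3 hA0
      _ = _ := mul_comm _ _
  · have h3 : x ^ d ≤ Z ^ d := pow_le_pow_left₀ hx.le (by linarith) d
    have h4 : x ^ a ≤ Z ^ d * (1 + Φ) ^ a := by
      calc x ^ a = x ^ d * x ^ (a - d) := by rw [← pow_add]; congr 1; omega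
        _ ≤ Z ^ d * (1 + Φ) ^ (a - d) :=
            mul_le_mul h3 (pow_le_pow_left₀ hx.le (by linarith) _) (by positivity) (by positivity)
        _ ≤ Z ^ d * (1 + Φ) ^ a := mul_le_mul_of_nonneg_left
            (pow_le_pow_right₀ (by linarith) (by omega)) (by positivity)
    have hxn : 0 < x ^ a := by positivity
    have h5 : K * (1 + Φ) ^ a * (x ^ a)⁻¹ * E = (K * (1 + Φ) ^ a * E) / x ^ a := by
      rw [div_eq_mul_inv]
      ring
    rw [h5, le_div_iff₀ hxn]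
    calc A * x ^ a ≤ A * (Z ^ d * (1 + Φ) ^ a) := mul_le_mul_of_nonneg_left h4 hA0
      _ = (Z ^ d * A) * (1 + Φ) ^ a := by ring
      _ ≤ (K * E) * (1 + Φ) ^ a := mul_le_mul_of_nonneg_right h2 (by positivity)
      _ = _ := by ring

/-- **H3** for `half p` -/
theorem toH3 {p : ℤ[X]} (hnn : ∀ k, 0 ≤ p.coeff k)
    (hpar : ∀ j k, p.coeff j ≠ 0 → p.coeff k ≠ 0 → j % 2 = k % 2) (h0 : p ≠ 0)
    {m a : ℕ} (hd : p.natTrailingDegree ≤ a) {Φ c r₀ R cT CT : ℝ} (hc : 0 < c)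
    (hr₀ : 0 < r₀) (hR : Real.sqrt R ≤ 2 * Real.sinh Φ) (hcT : 0 < cT) (hCT : 0 ≤ CT)
    (h : ∀ x : ℝ, 0 < x → x ≤ Φ →
      c * x ^ a * Real.exp (m * x) ≤ ‖aeval (2 * Complex.sinh (x + (0 : ℝ) * Complex.I)) p‖)
    (ht : ∀ z : ℂ, Real.sqrt r₀ ≤ ‖z‖ → ‖z‖ ≤ Real.sqrt R → ∀ b : ℝ, 0 < b → b ^ 2 = ‖z‖ * b + 1 →
      ‖aeval z p‖ ≤ CT * b ^ m * Real.exp (-(cT * m * (1 - Real.cos (2 * z.arg))))) :
    EVC.H3 (cT * (2 / Real.pi ^ 2))
      (CT * (c * Real.arsinh (Real.sqrt r₀ / 2) ^ a)⁻¹) r₀ R m (half p) := by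
  intro r θ hr0 hrR hθ
  have hr : 0 < r := lt_of_lt_of_le hr₀ hr0
  obtain ⟨ρ, hρ⟩ : ∃ ρ, ρ = Real.sqrt r := ⟨_, rfl⟩
  have hρpos : 0 < ρ := by rw [hρ]; exact Real.sqrt_pos.2 hr
  have hρr : ρ ^ 2 = r := by rw [hρ]; exact Real.sq_sqrt hr.le
  have hρ0 : Real.sqrt r₀ ≤ ρ := by rw [hρ]; exact Real.sqrt_le_sqrt hr0
  have hρR : ρ ≤ Real.sqrt R := by rw [hρ]; exact Real.sqrt_le_sqrt hrR
  have hs0 : 0 < Real.sqrt r₀ := Real.sqrt_pos.2 hr₀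
  obtain ⟨x, hx⟩ : ∃ x, x = Real.arsinh (ρ / 2) := ⟨_, rfl⟩
  obtain ⟨x0, hx0⟩ : ∃ x0, x0 = Real.arsinh (Real.sqrt r₀ / 2) := ⟨_, rfl⟩
  have hsx : 2 * Real.sinh x = ρ := by rw [hx, Real.sinh_arsinh]; ring
  have hx0pos : 0 < x0 := by
    rw [hx0]
    exact Real.arsinh_pos_iff.2 (by linarith)
  have hx0x : x0 ≤ x := by
    rw [hx0, hx]
    exact Real.arsinh_le_arsinh.2 (by linarith)
  have hxpos : 0 < x := by linarith
  have hxΦ : x ≤ Φ := by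
    rw [← Real.sinh_le_sinh]
    linarith
  obtain ⟨d, hd'⟩ : ∃ d, d = p.natTrailingDegree := ⟨_, rfl⟩
  -- the real point
  have h2 := h x hxpos hxΦ
  have e1 : (2 * Complex.sinh (x + (0 : ℝ) * Complex.I)) = ((ρ : ℝ) : ℂ) := by
    have e2 : Complex.sinh (x + (0 : ℝ) * Complex.I) = ((Real.sinh x : ℝ) : ℂ) := by simp
    rw [e2, ← hsx]
    push_cast
    ring
  have e2 : ‖aeval ((ρ : ℝ) : ℂ) p‖ = ρ ^ d * (half p).eval r := by
    rw [aeval_eq hpar h0, norm_mul, norm_pow, Complex.norm_real, Real.norm_of_nonneg hρpos.le,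
      ← hd']
    congr 1
    have : ((ρ : ℝ) : ℂ) ^ 2 = ((r : ℝ) : ℂ) := by
      rw [← hρr]
      push_cast
      ring
    rw [this]
    exact norm_aeval_real (half_nn hnn) hr.le
  rw [e1, e2] at h2
  -- the complex point
  obtain ⟨z, hz⟩ : ∃ z : ℂ, z = (ρ : ℂ) * Complex.exp (((θ / 2 : ℝ) : ℂ) * Complex.I) := ⟨_, rfl⟩
  have hzn : ‖z‖ = ρ := by
    rw [hz, norm_mul, Complex.norm_exp_ofReal_mul_I, mul_one, Complex.norm_real,
      Real.norm_of_nonneg hρpos.le]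
  have hza : z.arg = θ / 2 := by
    rw [hz]
    rw [abs_le] at hθ
    have hpi := Real.pi_pos
    rw [Complex.arg_real_mul _ hρpos, Complex.arg_exp_mul_I, toIocMod_eq_self]
    constructor <;> linarith
  have hz2 : z ^ 2 = EVC.pt r θ := by
    rw [hz]
    unfold EVC.pt
    rw [mul_pow, ← Complex.exp_nat_mul, ← hρr]
    push_cast
    congr 2
    ring
  have e3 : ‖aeval z p‖ = ρ ^ d * ‖aeval (EVC.pt r θ) (half p)‖ := by
    rw [aeval_eq hpar h0, norm_mul, norm_pow, hzn, ← hd', hz2]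
  have hb : Real.exp x ^ 2 = ‖z‖ * Real.exp x + 1 := by
    rw [hzn, ← hsx, Real.sinh_eq, Real.exp_neg]
    field_simp
    ring
  have h3 := ht z (by rw [hzn]; exact hρ0) (by rw [hzn]; exact hρR) (Real.exp x)
    (Real.exp_pos x) hb
  rw [e3, hza] at h3
  have e4 : (2 : ℝ) * (θ / 2) = θ := by ring
  rw [e4] at h3
  have e5 : Real.exp x ^ m = Real.exp (m * x) := by rw [← Real.exp_nat_mul]
  rw [e5] at h3
  have hcos : Real.cos θ ≤ 1 - 2 / Real.pi ^ 2 * θ ^ 2 := Real.cos_le_one_sub_mul_cos_sq hθ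
  have h4 : Real.exp (-(cT * m * (1 - Real.cos θ))) ≤
      Real.exp (-(cT * (2 / Real.pi ^ 2) * m * θ ^ 2)) := by
    rw [Real.exp_le_exp]
    have h5 : 2 / Real.pi ^ 2 * θ ^ 2 ≤ 1 - Real.cos θ := by linarith
    have h6 : cT * m * (2 / Real.pi ^ 2 * θ ^ 2) ≤ cT * m * (1 - Real.cos θ) :=
      mul_le_mul_of_nonneg_left h5 (by positivity)
    have h7 : cT * (2 / Real.pi ^ 2) * m * θ ^ 2 = cT * m * (2 / Real.pi ^ 2 * θ ^ 2) := by ring
    rw [h7]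
    linarith
  obtain ⟨A, hA⟩ : ∃ A, A = ‖aeval (EVC.pt r θ) (half p)‖ := ⟨_, rfl⟩
  obtain ⟨B, hB⟩ : ∃ B, B = (half p).eval r := ⟨_, rfl⟩
  obtain ⟨E, hE⟩ : ∃ E, E = Real.exp (m * x) := ⟨_, rfl⟩
  obtain ⟨T, hT⟩ : ∃ T, T = Real.exp (-(cT * (2 / Real.pi ^ 2) * m * θ ^ 2)) := ⟨_, rfl⟩
  rw [← hA, ← hE] at h3
  rw [← hE, ← hB] at h2
  rw [← hT] at h4
  rw [← hA, ← hB, ← hx0, ← hT]
  have hE0 : 0 < E := by rw [hE]; exact Real.exp_pos _
  have hT0 : 0 < T := by rw [hT]; exact Real.exp_pos _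
  have hρd : 0 < ρ ^ d := by positivity
  have h5 : c * x0 ^ a * E ≤ ρ ^ d * B := by
    refine le_trans ?_ h2
    exact mul_le_mul_of_nonneg_right (mul_le_mul_of_nonneg_left
      (pow_le_pow_left₀ hx0pos.le hx0x a) hc.le) hE0.le
  have h6 : ρ ^ d * A ≤ CT * E * T :=
    h3.trans (mul_le_mul_of_nonneg_left h4 (by positivity))
  have hM : 0 < c * x0 ^ a := by positivity
  have h7 : ρ ^ d * (A * (c * x0 ^ a)) ≤ ρ ^ d * (CT * T * B) := by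
    calc ρ ^ d * (A * (c * x0 ^ a)) = (ρ ^ d * A) * (c * x0 ^ a) := by ring
      _ ≤ (CT * E * T) * (c * x0 ^ a) := mul_le_mul_of_nonneg_right h6 hM.le
      _ = CT * T * (c * x0 ^ a * E) := by ring
      _ ≤ CT * T * (ρ ^ d * B) := mul_le_mul_of_nonneg_left h5 (by positivity)
      _ = _ := by ring
  have h8 : A * (c * x0 ^ a) ≤ CT * T * B := le_of_mul_le_mul_left h7 hρd
  have h9 : CT * (c * x0 ^ a)⁻¹ * T * B = (CT * T * B) / (c * x0 ^ a) := by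
    rw [div_eq_mul_inv]
    ring
  rw [h9, le_div_iff₀ hM]
  exact h8

end Pool.Agent.Helper57.EV2
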