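import Pool.Agent.Helper57.EV2.Final0
import Pool.Agent.Helper48.EV2.ZeroFree
import Pool.Agent.Helper74.EV2.Growth

/-!
# The top coefficients, from a bound of `G` on a disc and the bounds in the strip, format-free
-/

set_option autoImplicit false

namespace Pool.Agent.Helper57.EV2

open Polynomial Pool.Agent.Helper57.EV

/-- comparison of exponents: `s ^ q` between two positive constants near `0` forces `q = 0` -/
theorem exp_zero {q : ℤ} {s₁ α β : ℝ} (hs₁ : 0 < s₁) (hα : 0 < α)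
    (h : ∀ s : ℝ, 0 < s → s ≤ s₁ → α ≤ s ^ q ∧ s ^ q ≤ β) : q = 0 := by
  by_contra hq
  rcases lt_or_gt_of_ne hq with hq | hq
  · -- `s ^ q ≥ 1 / s`
    obtain ⟨s, hs⟩ : ∃ s, s = min (min s₁ 1) (1 / (2 * (|β| + 1))) := ⟨_, rfl⟩
    have hs0 : 0 < s := by rw [hs]; exact lt_min (lt_min hs₁ one_pos) (by positivity)
    have h1 : s ≤ s₁ := by rw [hs]; exact (min_le_left _ _).trans (min_le_left _ _)
    have h2 : s ≤ 1 := by rw [hs]; exact (min_le_left _ _).trans (min_le_right _ _)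
    have h3 : s ≤ 1 / (2 * (|β| + 1)) := by rw [hs]; exact min_le_right _ _
    have h4 : s⁻¹ ≤ s ^ q := by
      rw [← zpow_neg_one]
      exact zpow_le_zpow_right_of_le_one₀ hs0 h2 (by omega)
    have h5 := (h s hs0 h1).2
    have h6 : 2 * (|β| + 1) ≤ s⁻¹ := by
      rw [le_inv_comm₀ (by positivity) hs0]
      rw [← one_div]
      exact h3
    have h7 := le_abs_self β
    have h8 := abs_nonneg β
    linarith
  · obtain ⟨s, hs⟩ : ∃ s, s = min (min s₁ 1) (α / 2) := ⟨_, rfl⟩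
    have hs0 : 0 < s := by rw [hs]; exact lt_min (lt_min hs₁ one_pos) (by positivity)
    have h1 : s ≤ s₁ := by rw [hs]; exact (min_le_left _ _).trans (min_le_left _ _)
    have h2 : s ≤ 1 := by rw [hs]; exact (min_le_left _ _).trans (min_le_right _ _)
    have h3 : s ≤ α / 2 := by rw [hs]; exact min_le_right _ _
    have h4 : s ^ q ≤ s := by
      calc s ^ q ≤ s ^ (1 : ℤ) := zpow_le_zpow_right_of_le_one₀ hs0 h2 (by omega)
        _ = s := zpow_one s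
    have h5 := (h s hs0 h1).1
    linarith

/-- growth of a polynomial with non negative coefficients at `(1 / s - s) ^ 2` -/
theorem growth {P : ℝ[X]} (hP : ∀ k, 0 ≤ P.coeff k) {s : ℝ} (hs : 0 < s) (hs1 : s ≤ 1 / 2) :
    P.leadingCoeff * (9 / 16) ^ P.natDegree ≤ P.eval ((s⁻¹ - s) ^ 2) * s ^ (2 * P.natDegree) ∧
      P.eval ((s⁻¹ - s) ^ 2) * s ^ (2 * P.natDegree) ≤ P.eval 1 := by
  obtain ⟨u, hu⟩ : ∃ u, u = (s⁻¹ - s) ^ 2 := ⟨_, rfl⟩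
  have hsi : 2 ≤ s⁻¹ := by
    rw [le_inv_comm₀ (by norm_num) hs]
    linarith
  have hu1 : 1 ≤ u := by
    rw [hu]
    nlinarith
  have hus : u * s ^ 2 = (1 - s ^ 2) ^ 2 := by
    rw [hu]
    field_simp
  have hs2 : s ^ 2 ≤ 1 / 4 := by nlinarith
  have h1 : (9 / 16 : ℝ) ≤ u * s ^ 2 := by
    rw [hus]
    nlinarith
  have h2 : u * s ^ 2 ≤ 1 := by
    rw [hus]
    nlinarith [sq_nonneg s]
  have h3 : u ^ P.natDegree * s ^ (2 * P.natDegree) = (u * s ^ 2) ^ P.natDegree := by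
    rw [mul_pow, ← pow_mul]
  rw [← hu]
  constructor
  · have h4 : P.leadingCoeff * u ^ P.natDegree ≤ P.eval u := by
      rw [eval_eq_sum_range]
      exact Finset.single_le_sum (f := fun i => P.coeff i * u ^ i)
        (fun i _ => mul_nonneg (hP i) (by positivity)) (Finset.mem_range.2 (Nat.lt_succ_self _))
    calc P.leadingCoeff * (9 / 16) ^ P.natDegree
        ≤ P.leadingCoeff * (u * s ^ 2) ^ P.natDegree :=
          mul_le_mul_of_nonneg_left (pow_le_pow_left₀ (by norm_num) h1 _) (hP _)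
      _ = (P.leadingCoeff * u ^ P.natDegree) * s ^ (2 * P.natDegree) := by rw [← h3]; ring
      _ ≤ _ := mul_le_mul_of_nonneg_right h4 (by positivity)
  · have h4 : P.eval u ≤ P.eval 1 * u ^ P.natDegree := by
      rw [eval_eq_sum_range, eval_eq_sum_range, Finset.sum_mul]
      refine Finset.sum_le_sum fun i hi => ?_
      rw [Finset.mem_range] at hi
      rw [one_pow, mul_one]
      exact mul_le_mul_of_nonneg_left (pow_le_pow_right₀ hu1 (by omega)) (hP i)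
    have h5 : 0 ≤ P.eval 1 := by
      rw [eval_eq_sum_range]
      exact Finset.sum_nonneg fun i _ => mul_nonneg (hP i) (by simp)
    calc P.eval u * s ^ (2 * P.natDegree)
        ≤ (P.eval 1 * u ^ P.natDegree) * s ^ (2 * P.natDegree) :=
          mul_le_mul_of_nonneg_right h4 (by positivity)
      _ = P.eval 1 * (u * s ^ 2) ^ P.natDegree := by rw [mul_assoc, h3]
      _ ≤ P.eval 1 * 1 :=
          mul_le_mul_of_nonneg_left (pow_le_one₀ (by positivity) h2) h5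
      _ = _ := mul_one _

/-- bounds of `half p` near `s = 0` from those of `G` -/
theorem near {p G : ℤ[X]} {e : ℤ}
    (hpar : ∀ j k, p.coeff j ≠ 0 → p.coeff k ≠ 0 → j % 2 = k % 2) (h0 : p ≠ 0)
    (hid : ∀ s : ℂ, s ≠ 0 → aeval (s ^ 2) G = s ^ e * aeval (s⁻¹ - s) p)
    {a : ℕ} (hd : p.natTrailingDegree ≤ a) {T K₁ : ℝ} (hK₁ : 0 < K₁)
    (hG : ∀ t : ℂ, ‖t‖ ≤ T → ‖t‖ ^ G.natTrailingDegree / 2 ≤ ‖aeval t G‖ ∧
      ‖aeval t G‖ ≤ K₁ * ‖t‖ ^ G.natTrailingDegree)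
    {s : ℂ} (hs0 : s ≠ 0) (hs1 : ‖s‖ ≤ 1 / 2) (hsT : ‖s‖ ^ 2 ≤ T) :
    1 / 2 * (4 / 5) ^ a ≤ ‖aeval ((s⁻¹ - s) ^ 2) (half p)‖ *
        ‖s‖ ^ (e - 2 * G.natTrailingDegree - p.natTrailingDegree) ∧
      ‖aeval ((s⁻¹ - s) ^ 2) (half p)‖ *
        ‖s‖ ^ (e - 2 * G.natTrailingDegree - p.natTrailingDegree) ≤ K₁ * (4 / 3) ^ a := by
  obtain ⟨d, hd'⟩ : ∃ d, d = p.natTrailingDegree := ⟨_, rfl⟩
  obtain ⟨ν, hν⟩ : ∃ ν, ν = G.natTrailingDegree := ⟨_, rfl⟩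
  have hns : 0 < ‖s‖ := norm_pos_iff.2 hs0
  obtain ⟨h1, h2⟩ := hG (s ^ 2) (by rw [norm_pow]; exact hsT)
  have h3 := hid s hs0
  rw [aeval_eq hpar h0, ← hd'] at h3
  obtain ⟨A, hA⟩ : ∃ A, A = ‖aeval ((s⁻¹ - s) ^ 2) (half p)‖ := ⟨_, rfl⟩
  have h4 : s⁻¹ - s = s⁻¹ * (1 - s ^ 2) := by field_simp
  obtain ⟨w, hw⟩ : ∃ w, w = ‖1 - s ^ 2‖ := ⟨_, rfl⟩
  have hns2 : ‖s‖ ^ 2 ≤ 1 / 4 := by nlinarith
  have hw1 : 3 / 4 ≤ w := by
    rw [hw]
    have h5 := norm_sub_norm_le (1 : ℂ) (s ^ 2)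
    rw [norm_one, norm_pow] at h5
    linarith
  have hw2 : w ≤ 5 / 4 := by
    rw [hw]
    have h5 := norm_sub_le (1 : ℂ) (s ^ 2)
    rw [norm_one, norm_pow] at h5
    linarith
  have hw0 : 0 < w := by linarith
  have h5 : ‖aeval (s ^ 2) G‖ = ‖s‖ ^ e * ((‖s‖ ^ d)⁻¹ * w ^ d * A) := by
    rw [h3, norm_mul, norm_zpow, norm_mul, norm_pow, ← hA]
    rw [h4, norm_mul, norm_inv, ← hw, mul_pow, inv_pow]
  have h6 : A * ‖s‖ ^ (e - 2 * ν - d) * w ^ d = ‖aeval (s ^ 2) G‖ / ‖s‖ ^ (2 * ν) := by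
    rw [h5, zpow_sub₀ hns.ne', zpow_sub₀ hns.ne']
    have e1 : ‖s‖ ^ (2 * (ν : ℤ)) = ‖s‖ ^ (2 * ν) := by
      rw [← zpow_natCast]
      push_cast
      rfl
    rw [e1, zpow_natCast]
    have : ‖s‖ ^ d ≠ 0 := by positivity
    have : ‖s‖ ^ (2 * ν) ≠ 0 := by positivity
    field_simp
  rw [← hν, norm_pow, ← pow_mul] at h1 h2
  rw [← hν, ← hd', ← hA]
  obtain ⟨B, hB⟩ : ∃ B, B = A * ‖s‖ ^ (e - 2 * ν - d) := ⟨_, rfl⟩
  have hA0 : 0 ≤ A := by rw [hA]; exact norm_nonneg _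
  have hB0 : 0 ≤ B := by rw [hB]; positivity
  have hsν : 0 < ‖s‖ ^ (2 * ν) := by positivity
  rw [← hB] at h6 ⊢
  rw [← hd'] at hd
  have h7 : 1 / 2 ≤ B * w ^ d := by
    rw [h6, le_div_iff₀ hsν]
    linarith
  have h8 : B * w ^ d ≤ K₁ := by
    rw [h6, div_le_iff₀ hsν]
    exact h2
  constructor
  · -- lower
    have h9 : w ^ d ≤ (5 / 4) ^ a :=
      (pow_le_pow_left₀ hw0.le hw2 d).trans (pow_le_pow_right₀ (by norm_num) hd)
    have h10 : 1 / 2 ≤ B * (5 / 4) ^ a := h7.trans (mul_le_mul_of_nonneg_left h9 hB0)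
    have h11 : ((5 : ℝ) / 4) ^ a * (4 / 5) ^ a = 1 := by
      rw [← mul_pow]
      norm_num
    calc 1 / 2 * (4 / 5 : ℝ) ^ a ≤ (B * (5 / 4) ^ a) * (4 / 5) ^ a :=
          mul_le_mul_of_nonneg_right h10 (by positivity)
      _ = B := by rw [mul_assoc, h11, mul_one]
  · have h9 : (3 / 4 : ℝ) ^ a ≤ w ^ d :=
      (pow_le_pow_of_le_one (by norm_num) (by norm_num) hd).trans
        (pow_le_pow_left₀ (by norm_num) hw1 d)
    have h10 : B * (3 / 4) ^ a ≤ K₁ := (mul_le_mul_of_nonneg_left h9 hB0).trans h8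
    have h11 : ((3 : ℝ) / 4) ^ a * (4 / 3) ^ a = 1 := by
      rw [← mul_pow]
      norm_num
    calc B = B * (3 / 4) ^ a * (4 / 3) ^ a := by rw [mul_assoc, h11, mul_one]
      _ ≤ _ := mul_le_mul_of_nonneg_right h10 (by positivity)

/-- the exponent is twice the degree -/
theorem exponent {P : ℝ[X]} (hP : ∀ k, 0 ≤ P.coeff k) (hP0 : P ≠ 0) {q : ℤ} {s₁ c₀ C₀ : ℝ}
    (hs₁ : 0 < s₁) (hs₁' : s₁ ≤ 1 / 2) (hc₀ : 0 < c₀)
    (h : ∀ s : ℂ, s ≠ 0 → ‖s‖ ≤ s₁ → c₀ ≤ ‖aeval ((s⁻¹ - s) ^ 2) P‖ * ‖s‖ ^ q ∧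
      ‖aeval ((s⁻¹ - s) ^ 2) P‖ * ‖s‖ ^ q ≤ C₀) : q = 2 * P.natDegree := by
  have hlc : 0 < P.leadingCoeff :=
    lt_of_le_of_ne (hP _) (Ne.symm (leadingCoeff_ne_zero.2 hP0))
  have h1pos : 0 < P.eval 1 := by
    have h1 : P.leadingCoeff ≤ P.eval 1 := by
      rw [eval_eq_sum_range]
      have := Finset.single_le_sum (f := fun i => P.coeff i * (1 : ℝ) ^ i)
        (fun i _ => mul_nonneg (hP i) (by positivity))
        (Finset.mem_range.2 (Nat.lt_succ_self P.natDegree))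
      simpa using this
    linarith
  have hq : q - 2 * P.natDegree = 0 := by
    apply exp_zero (α := c₀ / P.eval 1)
      (β := C₀ / (P.leadingCoeff * (9 / 16) ^ P.natDegree)) hs₁ (by positivity)
    intro s hs hs'
    obtain ⟨g1, g2⟩ := growth hP hs (hs'.trans hs₁')
    have hsc : ((s : ℝ) : ℂ) ≠ 0 := by exact_mod_cast hs.ne'
    have hns : ‖((s : ℝ) : ℂ)‖ = s := by rw [Complex.norm_real, Real.norm_of_nonneg hs.le]
    obtain ⟨h1, h2⟩ := h s hsc (by rw [hns]; exact hs')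
    have e1 : ((s : ℂ)⁻¹ - s) ^ 2 = (((s⁻¹ - s) ^ 2 : ℝ) : ℂ) := by push_cast; ring
    rw [hns, e1, norm_aeval_real hP (sq_nonneg _)] at h1 h2
    obtain ⟨A, hA⟩ : ∃ A, A = P.eval ((s⁻¹ - s) ^ 2) := ⟨_, rfl⟩
    rw [← hA] at h1 h2 g1 g2
    have e2 : s ^ q = s ^ (q - 2 * (P.natDegree : ℤ)) * s ^ (2 * P.natDegree) := by
      have e3 : s ^ (2 * P.natDegree) = s ^ (2 * (P.natDegree : ℤ)) := by
        rw [← zpow_natCast]
        push_cast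
        rfl
      rw [e3, ← zpow_add₀ hs.ne']
      congr 1
      ring
    obtain ⟨y, hy⟩ : ∃ y, y = s ^ (q - 2 * (P.natDegree : ℤ)) := ⟨_, rfl⟩
    obtain ⟨g, hg⟩ : ∃ g, g = A * s ^ (2 * P.natDegree) := ⟨_, rfl⟩
    have e4 : A * s ^ q = y * g := by
      rw [e2, ← hy, hg]
      ring
    rw [e4] at h1 h2
    rw [← hg] at g1 g2
    rw [← hy]
    have hg0 : 0 < P.leadingCoeff * (9 / 16) ^ P.natDegree := by positivity
    have hy0 : 0 < y := by rw [hy]; positivity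
    constructor
    · rw [div_le_iff₀ h1pos]
      exact h1.trans (mul_le_mul_of_nonneg_left g2 hy0.le)
    · rw [le_div_iff₀ hg0]
      exact (mul_le_mul_of_nonneg_left g1 hy0.le).trans h2
  linarith

section family

variable {ι : Type*} (len : ι → ℕ) (p G : ι → ℤ[X]) (e : ι → ℤ)

theorem top_of_G (K0 : ℕ) (nn : ∀ i k, 0 ≤ (p i).coeff k)
    (par : ∀ i j k, (p i).coeff j ≠ 0 → (p i).coeff k ≠ 0 → j % 2 = k % 2)
    (hid : ∀ i, ∀ s : ℂ, s ≠ 0 → aeval (s ^ 2) (G i) = s ^ (e i) * aeval (s⁻¹ - s) (p i))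
    (he : ∀ i, |e i - len i| ≤ K0)
    (h0 : ∀ i, p i ≠ 0) {a : ℕ} (ha : ∀ i, (p i).natTrailingDegree ≤ a)
    (h1 : ∀ Φ : ℝ, 0 < Φ → ∃ th : ℝ, 0 < th ∧ ∃ a : ℕ, ∃ c : ℝ, 0 < c ∧ ∃ K : ℝ,
      ∀ i, ∀ x y : ℝ, 0 < x → x ≤ Φ → |y| ≤ th →
        c * x ^ a ≤ ‖aeval (Complex.exp (-(2 * (x + y * Complex.I)))) (G i)‖ ∧
        ‖aeval (Complex.exp (-(2 * (x + y * Complex.I)))) (G i)‖ ≤ K)
    (h4 : ∃ t₀ : ℝ, 0 < t₀ ∧ ∃ K : ℝ, ∀ i, ∀ t : ℂ, ‖t‖ ≤ t₀ → ‖aeval t (G i)‖ ≤ K) :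
    ∃ c : ℝ, 0 < c ∧ ∃ L₁ : ℕ, ∀ i, L₁ ≤ len i → ∀ k : ℕ, 1 ≤ k →
      ((half (p i)).natDegree : ℝ) ≤ k + c * len i →
        (half (p i)).coeff (k - 1) * (half (p i)).coeff (k + 1) ≤ (half (p i)).coeff k ^ 2 := by
  obtain ⟨t₀, ht₀, K, hK⟩ := h4
  -- a real point inside the disc
  obtain ⟨Φ, hΦ, hΦt⟩ : ∃ Φ : ℝ, 0 < Φ ∧ Real.exp (-(2 * Φ)) < t₀ := by
    refine ⟨|Real.log t₀| + 1, by positivity, ?_⟩
    rw [← Real.lt_log_iff_exp_lt ht₀]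
    have := neg_abs_le (Real.log t₀)
    have := abs_nonneg (Real.log t₀)
    linarith
  obtain ⟨th, hth, a', c', hc', K', hG⟩ := h1 Φ hΦ
  obtain ⟨T, hT, K₁, hK₁, ν₀, hz⟩ := Pool.Agent.Helper48.EV2.zero_free t₀ (Real.exp (-(2 * Φ)))
    (|K| + 1) (c' * Φ ^ a') (Real.exp_pos _) hΦt (by positivity) (by positivity)
  have hz' : ∀ i, (G i).natTrailingDegree ≤ ν₀ ∧ ∀ t : ℂ, ‖t‖ ≤ T →
      ‖t‖ ^ (G i).natTrailingDegree / 2 ≤ ‖aeval t (G i)‖ ∧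
        ‖aeval t (G i)‖ ≤ K₁ * ‖t‖ ^ (G i).natTrailingDegree := by
    intro i
    apply hz (G i)
    · intro t ht
      have := hK i t ht
      have := le_abs_self K
      linarith
    · have h5 := (hG i Φ 0 hΦ le_rfl (by rw [abs_zero]; exact hth.le)).1
      have e1 : Complex.exp (-(2 * ((Φ : ℂ) + ((0 : ℝ) : ℂ) * Complex.I))) =
          ((Real.exp (-(2 * Φ)) : ℝ) : ℂ) := by
        push_cast
        simp
      rw [e1] at h5
      exact h5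
  obtain ⟨s₁, hs₁⟩ : ∃ s₁, s₁ = min (1 / 2) (Real.sqrt T) := ⟨_, rfl⟩
  have hs₁0 : 0 < s₁ := by rw [hs₁]; exact lt_min (by norm_num) (Real.sqrt_pos.2 hT)
  have hs₁1 : s₁ ≤ 1 / 2 := by rw [hs₁]; exact min_le_left _ _
  have hs₁2 : s₁ ≤ Real.sqrt T := by rw [hs₁]; exact min_le_right _ _
  have hnear : ∀ i, ∀ s : ℂ, s ≠ 0 → ‖s‖ ≤ s₁ →
      1 / 2 * (4 / 5) ^ a ≤ ‖aeval ((s⁻¹ - s) ^ 2) (half (p i))‖ *
        ‖s‖ ^ (e i - 2 * (G i).natTrailingDegree - (p i).natTrailingDegree) ∧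
      ‖aeval ((s⁻¹ - s) ^ 2) (half (p i))‖ *
        ‖s‖ ^ (e i - 2 * (G i).natTrailingDegree - (p i).natTrailingDegree) ≤
          K₁ * (4 / 3) ^ a := by
    intro i s hs0 hs
    apply near (par i) (h0 i) (hid i) (ha i) hK₁ (hz' i).2 hs0 (hs.trans hs₁1)
    have h5 : ‖s‖ ^ 2 ≤ Real.sqrt T ^ 2 := pow_le_pow_left₀ (norm_nonneg _) (hs.trans hs₁2) 2
    rwa [Real.sq_sqrt hT.le] at h5
  have hhalf0 : ∀ i, half (p i) ≠ 0 := by
    intro i h5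
    have h6 := half_one (nn i) (h0 i)
    rw [h5, coeff_zero] at h6
    linarith
  have hexp : ∀ i, e i - 2 * (G i).natTrailingDegree - (p i).natTrailingDegree =
      2 * (half (p i)).natDegree := fun i =>
    exponent (half_nn (nn i)) (hhalf0 i) hs₁0 hs₁1 (by positivity) (hnear i)
  obtain ⟨c₄, hc₄, d₀, htop⟩ := Pool.Agent.Helper74.EV2.top_lc (s1 := s₁)
    (c0 := 1 / 2 * (4 / 5) ^ a) (C0 := K₁ * (4 / 3) ^ a) hs₁0 (by positivity) (by positivity)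
  refine ⟨c₄ / 4, by positivity, 2 * (K0 + 2 * ν₀ + a) + 4 * d₀, ?_⟩
  intro i hi k hk hk'
  have hD : (len i : ℤ) ≤ 2 * (half (p i)).natDegree + (K0 + 2 * ν₀ + a) := by
    have h5 := hexp i
    have h6 := (abs_le.1 (he i)).1
    have h7 := (hz' i).1
    have h8 := ha i
    omega
  have hD' : len i ≤ 4 * (half (p i)).natDegree := by omega
  have hd₀ : d₀ ≤ (half (p i)).natDegree := by omega
  have hlc : 0 < (half (p i)).leadingCoeff :=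
    lt_of_le_of_ne (half_nn (nn i) _) (Ne.symm (leadingCoeff_ne_zero.2 (hhalf0 i)))
  refine htop (half (p i)) hlc hd₀ ?_ k ?_
  · intro s hs0 hs
    have h5 := hnear i s hs0 hs
    rw [hexp i] at h5
    have e3 : ‖s‖ ^ (2 * ((half (p i)).natDegree : ℤ)) = ‖s‖ ^ (2 * (half (p i)).natDegree) := by
      rw [← zpow_natCast]
      push_cast
      rfl
    rw [e3] at h5
    exact h5
  · have h6 : (len i : ℝ) ≤ 4 * (half (p i)).natDegree := by exact_mod_cast hD'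
    have h7 : c₄ / 4 * len i ≤ c₄ * (half (p i)).natDegree := by
      calc c₄ / 4 * len i ≤ c₄ / 4 * (4 * (half (p i)).natDegree) :=
            mul_le_mul_of_nonneg_left h6 (by positivity)
        _ = _ := by ring
    linarith

/-- **The format-free assembly.** -/
theorem ev2 (K0 : ℕ) (nn : ∀ i k, 0 ≤ (p i).coeff k)
    (par : ∀ i j k, (p i).coeff j ≠ 0 → (p i).coeff k ≠ 0 → j % 2 = k % 2)
    (deg : ∀ i, (p i).natDegree ≤ len i)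
    (hid : ∀ i, ∀ s : ℂ, s ≠ 0 → aeval (s ^ 2) (G i) = s ^ (e i) * aeval (s⁻¹ - s) (p i))
    (he : ∀ i, |e i - len i| ≤ K0)
    (h1 : ∀ Φ : ℝ, 0 < Φ → ∃ th : ℝ, 0 < th ∧ ∃ a : ℕ, ∃ c : ℝ, 0 < c ∧ ∃ K : ℝ,
      ∀ i, ∀ x y : ℝ, 0 < x → x ≤ Φ → |y| ≤ th →
        c * x ^ a ≤ ‖aeval (Complex.exp (-(2 * (x + y * Complex.I)))) (G i)‖ ∧
        ‖aeval (Complex.exp (-(2 * (x + y * Complex.I)))) (G i)‖ ≤ K)
    (h3 : ∀ r₀ R : ℝ, 0 < r₀ → 0 < R → ∃ c : ℝ, 0 < c ∧ ∃ C : ℝ, ∀ i, ∀ z : ℂ, r₀ ≤ ‖z‖ →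
      ‖z‖ ≤ R → ∀ b : ℝ, 0 < b → b ^ 2 = ‖z‖ * b + 1 →
        ‖aeval z (p i)‖ ≤ C * b ^ (len i) * Real.exp (-(c * len i * (1 - Real.cos (2 * z.arg)))))
    (h4 : ∃ t₀ : ℝ, 0 < t₀ ∧ ∃ K : ℝ, ∀ i, ∀ t : ℂ, ‖t‖ ≤ t₀ → ‖aeval t (G i)‖ ≤ K) :
    ∃ m₀ : ℕ, ∀ i, m₀ ≤ len i → ∀ k : ℕ,
      (p i).coeff k * (p i).coeff (k + 4) ≤ (p i).coeff (k + 2) ^ 2 := by
  apply ev2_of_top len p G e K0 nn par deg hid he h1 h3
  obtain ⟨th, hth, a, c, hc, K, hG⟩ := h1 1 one_pos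
  have h0 : ∀ i, p i ≠ 0 := fun i => ne_zero_of (hid i) one_pos hth hc (hG i)
  refine top_of_G len p G e K0 nn par hid he h0 (a := a) ?_ h1 h4
  intro i
  apply trailing_le (nn i) (par i) (h0 i) one_pos (c := c * Real.exp (-(K0 * 1))) (by positivity)
  intro x hx hxΦ
  have h2 := (strip (hid i) (he i) hc (hG i) x 0 hx hxΦ (by rw [abs_zero]; exact hth.le)).1
  have h5 : (1 : ℝ) ≤ Real.exp (len i * x) := Real.one_le_exp (by positivity)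
  have e1 : ((x : ℂ) + ((0 : ℝ) : ℂ) * Complex.I) = (x : ℂ) := by simp
  rw [e1] at h2
  refine le_trans ?_ h2
  exact le_mul_of_one_le_right (by positivity) h5

end family

end Pool.Agent.Helper57.EV2
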